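import Mathlib
import Pool.Agent.R500.MG.Base

/-!
# Exponents of a 2-adic integer: congruences, generic units
-/

set_option autoImplicit false

namespace Pool.Agent.R477.TE

open Filter Topology Set MeasureTheory
open scoped ENNReal
open Pool.Agent.R500.MG (roughPart roughPart_smooth pi_gt_log)

/-- The `p`-rough part of the residue of the 2-adic integer `α` modulo `2 ^ p`. -/
noncomputable def W (α : ℤ_[2]) (p : ℕ) : ℕ := roughPart p (PadicInt.toZModPow p α).val

/-- The number of primes `p ≤ n` for which `W α p` is prime. -/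
noncomputable def M (α : ℤ_[2]) (n : ℕ) : ℕ :=
  ((Finset.range (n + 1)).filter (fun p => p.Prime ∧ (W α p).Prime)).card

lemma res_le {α β : ℤ_[2]} {k n : ℕ} (hkn : k ≤ n)
    (h : PadicInt.toZModPow n α = PadicInt.toZModPow n β) :
    PadicInt.toZModPow k α = PadicInt.toZModPow k β := by
  rw [← PadicInt.cast_toZModPow k n hkn α, h, PadicInt.cast_toZModPow k n hkn β]

lemma norm_le_iff (n : ℕ) (α β : ℤ_[2]) :
    ‖α - β‖ ≤ (2 : ℝ) ^ (-n : ℤ) ↔ PadicInt.toZModPow n α = PadicInt.toZModPow n β := by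
  have h := PadicInt.norm_le_pow_iff_mem_span_pow (p := 2) (α - β) n
  rw [← PadicInt.ker_toZModPow, RingHom.mem_ker, map_sub, sub_eq_zero] at h
  simpa using h

lemma open_ball (n : ℕ) (β : ℤ_[2]) :
    IsOpen {γ : ℤ_[2] | PadicInt.toZModPow n γ = PadicInt.toZModPow n β} := by
  rw [Metric.isOpen_iff]
  intro γ hγ
  refine ⟨(2 : ℝ) ^ (-n : ℤ), by positivity, fun δ hδ => ?_⟩
  rw [Metric.mem_ball, dist_eq_norm] at hδ
  have := (norm_le_iff n δ γ).1 hδ.le
  exact this.trans hγ

/-- a Baire category argument -/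
lemma generic {Q : ℕ → ℤ_[2] → Prop}
    (h : ∀ k m : ℕ, ∀ α : ℤ_[2], IsUnit α → ∃ β : ℤ_[2],
      PadicInt.toZModPow m β = PadicInt.toZModPow m α ∧ ∃ n ≥ k, ∃ l : ℕ, ∀ γ : ℤ_[2],
        PadicInt.toZModPow l γ = PadicInt.toZModPow l β → Q n γ) :
    ∀ᶠ α in residual ℤ_[2], IsUnit α → ∃ᶠ n in atTop, Q n α := by
  have hk : ∀ k : ℕ, ∀ᶠ α in residual ℤ_[2], IsUnit α → ∃ n ≥ k, Q n α := by
    intro k
    set S : Set ℤ_[2] := {α | IsUnit α → ∃ n ≥ k, Q n α} with hS
    have hd : Dense (interior S) := by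
      rw [dense_iff_inter_open]
      intro U hU ⟨z, hz⟩
      by_cases hz1 : IsUnit z
      · obtain ⟨ε, hε, hball⟩ := Metric.isOpen_iff.1 hU z hz
        obtain ⟨m, hm⟩ := exists_pow_lt_of_lt_one hε (show (1 / 2 : ℝ) < 1 by norm_num)
        obtain ⟨β, hβ, n, hn, l, hl⟩ := h k m z hz1
        refine ⟨β, hball ?_, ?_⟩
        · rw [Metric.mem_ball, dist_eq_norm]
          refine lt_of_le_of_lt ((norm_le_iff m β z).2 hβ) ?_
          rw [zpow_neg, zpow_natCast, ← inv_pow]
          simpa using hm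
        · exact interior_maximal (fun γ hγ _ => ⟨n, hn, hl γ hγ⟩) (open_ball l β) rfl
      · refine ⟨z, hz, ?_⟩
        have hz2 : PadicInt.toZModPow 1 z = PadicInt.toZModPow 1 (0 : ℤ_[2]) := by
          rw [← norm_le_iff 1 z 0, sub_zero]
          have := PadicInt.mem_nonunits.1 hz1
          have h2 := (PadicInt.norm_lt_one_iff_dvd z).1 this
          have h3 := (PadicInt.norm_le_pow_iff_mem_span_pow (p := 2) z 1).2 (by
            rw [Ideal.mem_span_singleton, pow_one]; exact h2)
          simpa using h3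
        have h1 : {γ : ℤ_[2] | PadicInt.toZModPow 1 γ = PadicInt.toZModPow 1 (0 : ℤ_[2])} ⊆ S := by
          intro γ hγ hu
          exfalso
          have h4 := (norm_le_iff 1 γ 0).2 hγ
          rw [sub_zero, PadicInt.isUnit_iff.1 hu] at h4
          norm_num at h4
        exact interior_maximal h1 (open_ball 1 0) hz2
    exact mem_of_superset (residual_of_dense_open isOpen_interior hd) interior_subset
  filter_upwards [eventually_countable_forall.2 hk] with α hα h0
  rw [frequently_atTop]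
  intro k
  obtain ⟨n, hn, hQ⟩ := hα k h0
  exact ⟨n, hn, hQ⟩

lemma M_congr {α β : ℤ_[2]} {n : ℕ} (h : PadicInt.toZModPow n α = PadicInt.toZModPow n β) :
    M α n = M β n := by
  unfold M
  congr 1
  refine Finset.filter_congr fun p hp => ?_
  rw [Finset.mem_range] at hp
  unfold W
  rw [res_le (by omega : p ≤ n) h]

lemma res_nat {p N : ℕ} (h : N < 2 ^ p) : (PadicInt.toZModPow p (N : ℤ_[2])).val = N := by
  rw [map_natCast, ZMod.val_natCast, Nat.mod_eq_of_lt h]

/-- units with few exponents for a long time -/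
lemma low {f : ℕ → ℝ} (hf : Tendsto f atTop atTop) (k m : ℕ) (α : ℤ_[2]) (hα : IsUnit α) :
    ∃ β : ℤ_[2], PadicInt.toZModPow m β = PadicInt.toZModPow m α ∧ ∃ n ≥ k, ∃ l : ℕ, ∀ γ : ℤ_[2],
      PadicInt.toZModPow l γ = PadicInt.toZModPow l β → (M γ n : ℝ) < f n := by
  set m' := m + 1 with hm'
  have : NeZero (2 ^ m') := ⟨by positivity⟩
  set N := (PadicInt.toZModPow m' α).val with hN
  have hN2 : N < 2 ^ m' := ZMod.val_lt _
  have hres : PadicInt.toZModPow m' (N : ℤ_[2]) = PadicInt.toZModPow m' α := by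
    rw [map_natCast, hN, ZMod.natCast_zmod_val]
  have hN0 : N ≠ 0 := by
    intro h0
    have h1 : IsUnit (PadicInt.toZModPow m' α) := hα.map _
    have h2 := ZMod.isUnit_iff_coprime (PadicInt.toZModPow m' α).val (2 ^ m')
    rw [ZMod.natCast_zmod_val] at h2
    have h3 := h2.1 h1
    rw [← hN, h0, Nat.coprime_zero_left] at h3
    have : 1 < 2 ^ m' := Nat.one_lt_two_pow (by omega)
    omega
  set L := max m' N + 1 with hL
  obtain ⟨n, hn1, hn2⟩ := ((hf.eventually_gt_atTop (L : ℝ)).and (eventually_ge_atTop k)).exists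
  refine ⟨(N : ℤ_[2]), res_le (by omega) hres, n, hn2, n, fun γ hγ => ?_⟩
  rw [M_congr hγ]
  refine lt_of_le_of_lt ?_ hn1
  have hsub : ((Finset.range (n + 1)).filter (fun p => p.Prime ∧ (W (N : ℤ_[2]) p).Prime)) ⊆
      Finset.range L := by
    intro p hp
    simp only [Finset.mem_filter, Finset.mem_range] at hp ⊢
    by_contra hcon
    push Not at hcon
    obtain ⟨h1, h2, h3⟩ := hp
    have h4 : W (N : ℤ_[2]) p = 1 := by
      unfold W
      rw [res_nat (lt_of_lt_of_le hN2 (Nat.pow_le_pow_right (by norm_num) (by omega)))]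
      refine roughPart_smooth fun q _ hd => ?_
      have := Nat.le_of_dvd (by omega) hd
      omega
    rw [h4] at h3
    exact Nat.not_prime_one h3
  have := Finset.card_le_card hsub
  rw [Finset.card_range] at this
  have h6 : M (N : ℤ_[2]) n ≤ L := this
  exact_mod_cast h6

lemma log_succ {n : ℕ} (hn : 4 ≤ n) : Real.log ((n : ℝ) + 1) ≤ 2 * Real.log 2 * Real.log n := by
  have hn4 : (4 : ℝ) ≤ n := by exact_mod_cast hn
  have hn0 : (0 : ℝ) < n := by linarith
  have h1 : Real.log ((n : ℝ) + 1) = Real.log n + Real.log (1 + 1 / n) := by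
    rw [← Real.log_mul hn0.ne' (by positivity)]
    congr 1
    field_simp
  have h2 : Real.log (1 + 1 / (n : ℝ)) ≤ 1 / n := by
    have := Real.log_le_sub_one_of_pos (show (0 : ℝ) < 1 + 1 / n by positivity)
    linarith
  have h3 : 1 / (n : ℝ) ≤ 1 / 4 := one_div_le_one_div_of_le (by norm_num) hn4
  have h4 : 2 * Real.log 2 ≤ Real.log n := by
    have : Real.log 4 = 2 * Real.log 2 := by
      rw [show (4 : ℝ) = 2 ^ 2 by norm_num, Real.log_pow]; norm_num
    rw [← this]
    exact Real.log_le_log (by norm_num) hn4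
  have h5 := Real.log_two_gt_d9
  nlinarith

/-- all primes in a long interval are exponents -/
lemma high (k m : ℕ) (α : ℤ_[2]) (hα : IsUnit α) :
    ∃ β : ℤ_[2], PadicInt.toZModPow m β = PadicInt.toZModPow m α ∧ ∃ n ≥ k, ∃ l : ℕ, ∀ γ : ℤ_[2],
      PadicInt.toZModPow l γ = PadicInt.toZModPow l β →
        ∀ p : ℕ, p.Prime → 2 * Real.log n < p → p ≤ n → (W γ p).Prime := by
  have : NeZero (2 ^ m) := ⟨by positivity⟩
  have hu : IsUnit (PadicInt.toZModPow m α) := hα.map _
  obtain ⟨r, hr, hrp, hre⟩ := Nat.forall_exists_prime_gt_and_eq_mod hu (k + 5)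
  refine ⟨(r : ℤ_[2]), by rw [map_natCast]; exact hre, r - 1, by omega, r - 1,
    fun γ hγ p hp hp1 hp2 => ?_⟩
  set n := r - 1 with hn
  have hn4 : 4 ≤ n := by omega
  have hr2 : r < 2 ^ p := by
    have h1 : Real.log (r : ℝ) < p * Real.log 2 := by
      have h2 : (r : ℝ) = n + 1 := by
        rw [hn, Nat.cast_sub (by omega)]; simp
      rw [h2]
      refine (log_succ hn4).trans_lt ?_
      have h3 := mul_lt_mul_of_pos_right hp1 (Real.log_pos (show (1 : ℝ) < 2 by norm_num))
      linarith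
    rw [← Real.log_pow] at h1
    have h2 : (r : ℝ) < 2 ^ p :=
      (Real.log_lt_log_iff (by exact_mod_cast hrp.pos) (by positivity)).1 h1
    exact_mod_cast h2
  unfold W
  rw [res_le hp2 hγ, res_nat hr2]
  have h5 : roughPart p r = r := by
    unfold Pool.Agent.R500.MG.roughPart
    rw [Nat.primeFactorsList_prime hrp]
    have : p < r := by omega
    simp [this]
  rw [h5]
  exact hrp

lemma M_succ (α : ℤ_[2]) (n : ℕ) : M α (n + 1) ≤ M α n + 1 := by
  unfold M
  rw [Finset.range_add_one (n := n + 1), Finset.filter_insert]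
  split_ifs
  · exact Finset.card_insert_le _ _
  · omega

lemma M_ge {α : ℤ_[2]} {k n : ℕ} (h : ∀ p : ℕ, p.Prime → k < p → p ≤ n → (W α p).Prime) :
    Nat.primeCounting n ≤ M α n + Nat.primeCounting k := by
  have e : ∀ m : ℕ, Nat.primeCounting m = ((Finset.range (m + 1)).filter Nat.Prime).card := by
    intro m
    rw [Nat.primeCounting, Nat.primeCounting', Nat.count_eq_card_filter_range]
  rw [e n, e k]
  unfold M
  have hsub : (Finset.range (n + 1)).filter Nat.Prime ⊆
      ((Finset.range (n + 1)).filter (fun p => p.Prime ∧ (W α p).Prime)) ∪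
        (Finset.range (k + 1)).filter Nat.Prime := by
    intro p hp
    simp only [Finset.mem_filter, Finset.mem_range, Finset.mem_union] at hp ⊢
    by_cases hk : k < p
    · exact Or.inl ⟨hp.1, hp.2, h p hp.2 hk (by omega)⟩
    · exact Or.inr ⟨by omega, hp.2⟩
  exact (Finset.card_le_card hsub).trans (Finset.card_union_le _ _)

lemma pi_le (k : ℕ) : Nat.primeCounting k ≤ k := by
  rw [Nat.primeCounting, Nat.primeCounting', Nat.count_eq_card_filter_range]
  have hsub : (Finset.range (k + 1)).filter Nat.Prime ⊆ Finset.Icc 1 k := by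
    intro p hp
    rw [Finset.mem_filter, Finset.mem_range] at hp
    rw [Finset.mem_Icc]
    exact ⟨hp.2.one_lt.le, by omega⟩
  have := Finset.card_le_card hsub
  simpa using this

/-- limit points of a sequence with small increments -/
lemma cluster {a : ℕ → ℝ} (hlow : ∀ c : ℝ, 0 < c → ∃ᶠ n in atTop, a n < c)
    (hhigh : ∀ C : ℝ, ∃ᶠ n in atTop, C < a n)
    (hinc : ∀ ε : ℝ, 0 < ε → ∀ᶠ n in atTop, a (n + 1) ≤ a n + ε) {c : ℝ} (hc : 0 ≤ c) :
    MapClusterPt c atTop a := by
  rw [mapClusterPt_iff_frequently]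
  intro s hs
  obtain ⟨ε, hε, hball⟩ := Metric.mem_nhds_iff.1 hs
  rw [frequently_atTop]
  intro N
  obtain ⟨N0, hN0⟩ := eventually_atTop.1 (hinc (ε / 2) (by positivity))
  obtain ⟨n1, hn1, hn1'⟩ := frequently_atTop.1 (hlow (c + ε / 2) (by linarith)) (max N N0)
  classical
  have hex : ∃ n, n1 ≤ n ∧ c ≤ a n := by
    obtain ⟨n, hn, hn'⟩ := frequently_atTop.1 (hhigh c) n1
    exact ⟨n, hn, hn'.le⟩
  set n := Nat.find hex with hn
  obtain ⟨h1, h2⟩ := Nat.find_spec hex
  rw [← hn] at h1 h2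
  refine ⟨n, le_trans (le_of_max_le_left hn1) h1, hball ?_⟩
  rw [Metric.mem_ball, Real.dist_eq, abs_lt]
  refine ⟨by linarith, ?_⟩
  rcases eq_or_lt_of_le h1 with h3 | h3
  · rw [← h3]; linarith
  · have h4 := Nat.find_min hex (m := n - 1) (by omega)
    push Not at h4
    have h5 := h4 (by omega)
    have h6 := hN0 (n - 1) (by omega)
    rw [show n - 1 + 1 = n by omega] at h6
    linarith

/-- **The law fails for the generic 2-adic unit.** -/
theorem generic_unit : ∀ᶠ α : ℤ_[2] in residual ℤ_[2], IsUnit α →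
      (∃ᶠ n : ℕ in atTop, ∀ p : ℕ, p.Prime → 2 * Real.log n < p → p ≤ n → (W α p).Prime) ∧
      (∀ ε : ℝ, 0 < ε → ∃ᶠ n : ℕ in atTop, (1 - ε) * Nat.primeCounting n < M α n) ∧
      (∀ c : ℝ, 0 ≤ c → MapClusterPt c atTop (fun n : ℕ => (M α n : ℝ) / Real.log n)) := by
  have hlogt : Tendsto (fun n : ℕ => Real.log n) atTop atTop :=
    Real.tendsto_log_atTop.comp tendsto_natCast_atTop_atTop
  have hf : Tendsto (fun n : ℕ => √(Real.log n)) atTop atTop := Real.tendsto_sqrt_atTop.comp hlogt
  filter_upwards [generic (Q := fun n α => (M α n : ℝ) < √(Real.log n))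
      (fun k m α hα => low hf k m α hα),
    generic (Q := fun n α => ∀ p : ℕ, p.Prime → 2 * Real.log n < p → p ≤ n → (W α p).Prime)
      (fun k m α hα => high k m α hα)] with α hα1 hα2 h0
  have g1 := hα1 h0
  have g2 := hα2 h0
  -- many exponents
  have g3 : ∃ᶠ n : ℕ in atTop, (Nat.primeCounting n : ℝ) - 2 * Real.log n ≤ M α n := by
    refine (g2.and_eventually (eventually_ge_atTop 1)).mono fun n ⟨hn, hn1⟩ => ?_
    have hl : 0 ≤ Real.log n := Real.log_natCast_nonneg n
    have h1 := M_ge (α := α) (k := ⌊2 * Real.log n⌋₊) (n := n) (fun p hp hp1 hp2 =>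
      hn p hp ((Nat.floor_lt (by positivity)).1 hp1) hp2)
    have h2 := pi_le ⌊2 * Real.log n⌋₊
    have h3 : ((⌊2 * Real.log n⌋₊ : ℕ) : ℝ) ≤ 2 * Real.log n := Nat.floor_le (by positivity)
    have h4 : (Nat.primeCounting n : ℝ) ≤ M α n + ⌊2 * Real.log n⌋₊ := by
      exact_mod_cast h1.trans (Nat.add_le_add_left h2 _)
    linarith
  refine ⟨g2, fun ε hε => ?_, fun c hc => ?_⟩
  · refine (g3.and_eventually (pi_gt_log (2 / ε))).mono fun n ⟨hn1, hn2⟩ => ?_
    have h1 : 2 / ε * Real.log n * ε < Nat.primeCounting n * ε := mul_lt_mul_of_pos_right hn2 hε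
    have h2 : 2 / ε * Real.log n * ε = 2 * Real.log n := by field_simp
    linarith
  · refine cluster (fun c hc => ?_) (fun C => ?_) (fun ε hε => ?_) hc
    · have h1 : ∀ᶠ n : ℕ in atTop, (1 / c) < √(Real.log n) := hf.eventually_gt_atTop _
      refine (g1.and_eventually (h1.and (hlogt.eventually_gt_atTop 0))).mono fun n ⟨a1, a2, a3⟩ => ?_
      rw [div_lt_iff₀ a3]
      have a4 : √(Real.log n) * √(Real.log n) = Real.log n := Real.mul_self_sqrt a3.le
      have a5 : 0 < √(Real.log n) := Real.sqrt_pos.2 a3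
      rw [div_lt_iff₀ hc] at a2
      have a6 : 1 * √(Real.log n) < √(Real.log n) * c * √(Real.log n) :=
        mul_lt_mul_of_pos_right a2 a5
      have a7 : √(Real.log n) * c * √(Real.log n) = c * Real.log n := by
        rw [← a4]; ring_nf; rw [Real.sq_sqrt (by positivity)]
      linarith
    · refine (g3.and_eventually ((pi_gt_log (C + 2)).and (hlogt.eventually_gt_atTop 0))).mono
        fun n ⟨a1, a2, a3⟩ => ?_
      rw [lt_div_iff₀ a3]
      linarith
    · have h1 : ∀ᶠ n : ℕ in atTop, 1 / ε < Real.log n := hlogt.eventually_gt_atTop _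
      filter_upwards [h1, hlogt.eventually_gt_atTop 0, eventually_ge_atTop 1] with n a1 a2 a3
      have hn0 : (0 : ℝ) < n := by exact_mod_cast a3
      have h2 : Real.log n ≤ Real.log ((n + 1 : ℕ) : ℝ) := Real.log_le_log hn0 (by push_cast; linarith)
      have h3 : (M α (n + 1) : ℝ) ≤ M α n + 1 := by exact_mod_cast M_succ α n
      have h4 : (0 : ℝ) ≤ M α n := Nat.cast_nonneg _
      calc (M α (n + 1) : ℝ) / Real.log ((n + 1 : ℕ) : ℝ) ≤ (M α n + 1) / Real.log n := by gcongr
        _ = M α n / Real.log n + 1 / Real.log n := by ring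
        _ ≤ M α n / Real.log n + ε := by
            have : 1 / Real.log n ≤ ε := by
              rw [div_le_iff₀ a2]
              rw [div_lt_iff₀ hε] at a1
              linarith
            linarith

end Pool.Agent.R477.TE
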