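import Mathlib
import Pool.Agent.R500.MG.Dim

/-!
# Binary digits of a real number in `[0, 1)`, read as the digits of a 2-adic integer
-/

set_option autoImplicit false

namespace Pool.Agent.R477.TE

open Filter Topology Set MeasureTheory
open Pool.Agent.R500.MG (roughPart G pi_ratio roughPart_shift roughPart_smooth card_bad bad_decay)

/-- the `i`-th binary digit after the point -/
noncomputable def dg (x : ℝ) (i : ℕ) : ℕ := ⌊x * 2 ^ (i + 1)⌋₊ % 2

/-- the integer with the low binary digits `dg x 0, …, dg x (n - 1)` -/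
noncomputable def R (x : ℝ) (n : ℕ) : ℕ := ∑ i ∈ Finset.range n, dg x i * 2 ^ i

lemma dg_lt (x : ℝ) (i : ℕ) : dg x i < 2 := Nat.mod_lt _ (by norm_num)

lemma R_succ (x : ℝ) (n : ℕ) : R x (n + 1) = R x n + dg x n * 2 ^ n := by
  unfold R
  rw [Finset.sum_range_succ]

lemma R_lt (x : ℝ) (n : ℕ) : R x n < 2 ^ n := by
  induction n with
  | zero => simp [R]
  | succ n ih =>
    rw [R_succ, pow_succ]
    have h1 := dg_lt x n
    have h2 : dg x n * 2 ^ n ≤ 1 * 2 ^ n := Nat.mul_le_mul_right _ (by omega)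
    omega

lemma R_compat (x : ℝ) (n : ℕ) : R x (n + 1) % 2 ^ n = R x n := by
  rw [R_succ, Nat.add_mul_mod_self_right, Nat.mod_eq_of_lt (R_lt x n)]

lemma floor_half (x : ℝ) (n : ℕ) : ⌊x * 2 ^ (n + 1)⌋₊ / 2 = ⌊x * 2 ^ n⌋₊ := by
  have h := Nat.floor_div_natCast (x * 2 ^ (n + 1)) 2
  rw [← h]
  congr 1
  push_cast
  rw [pow_succ]
  ring

lemma floor_succ (x : ℝ) (n : ℕ) : ⌊x * 2 ^ (n + 1)⌋₊ = 2 * ⌊x * 2 ^ n⌋₊ + dg x n := by
  rw [← floor_half x n]
  unfold dg
  omega

lemma dg_of_succ {x : ℝ} {n a : ℕ} : R x (n + 1) = a ↔ R x n = a % 2 ^ n ∧ dg x n = a / 2 ^ n := by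
  have hp : 0 < 2 ^ n := by positivity
  constructor
  · rintro rfl
    refine ⟨(R_compat x n).symm, ?_⟩
    rw [R_succ, Nat.add_mul_div_right _ _ hp, Nat.div_eq_of_lt (R_lt x n), zero_add]
  · rintro ⟨h1, h2⟩
    rw [R_succ, h1, h2, mul_comm]
    exact Nat.mod_add_div a (2 ^ n)

/-- the points with a given residue form a dyadic interval -/
lemma cell (n : ℕ) : ∀ a < 2 ^ n, ∃ j < 2 ^ n, ∀ x : ℝ, x ∈ Ico (0 : ℝ) 1 →
    (R x n = a ↔ ⌊x * 2 ^ n⌋₊ = j) := by
  induction n with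
  | zero =>
    intro a ha
    refine ⟨0, by norm_num, fun x hx => ?_⟩
    have h1 : ⌊x * 2 ^ 0⌋₊ = 0 := by
      rw [pow_zero, mul_one, Nat.floor_eq_zero]
      exact hx.2
    have h2 : a = 0 := by simpa using ha
    simp only [R, h1, h2, Finset.range_zero, Finset.sum_empty]
  | succ n ih =>
    intro a ha
    have hp : 0 < 2 ^ n := by positivity
    obtain ⟨j, hj, h⟩ := ih (a % 2 ^ n) (Nat.mod_lt _ hp)
    have hd : a / 2 ^ n < 2 := by
      rw [Nat.div_lt_iff_lt_mul hp]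
      rw [pow_succ] at ha
      linarith
    refine ⟨2 * j + a / 2 ^ n, by rw [pow_succ]; omega, fun x hx => ?_⟩
    rw [dg_of_succ, h x hx, floor_succ]
    have h1 := dg_lt x n
    generalize a / 2 ^ n = e at hd
    omega

lemma floor_iff {x : ℝ} (hx : 0 ≤ x) (n j : ℕ) :
    ⌊x * 2 ^ n⌋₊ = j ↔ (j : ℝ) / 2 ^ n ≤ x ∧ x < (j + 1) / 2 ^ n := by
  have h2 : (0 : ℝ) < 2 ^ n := by positivity
  rw [Nat.floor_eq_iff (by positivity), div_le_iff₀ h2, lt_div_iff₀ h2]

lemma R_meas (n : ℕ) : Measurable fun x : ℝ => R x n := by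
  unfold R dg
  refine Finset.measurable_sum _ fun i _ => ?_
  have h1 : Measurable fun x : ℝ => ⌊x * 2 ^ (i + 1)⌋₊ :=
    Nat.measurable_floor.comp (measurable_id.mul_const _)
  exact (Measurable.of_discrete (f := fun m : ℕ => m % 2 * 2 ^ i)).comp h1

lemma vol_cell {n j : ℕ} (hj : j < 2 ^ n) :
    (volume.restrict (Ico (0 : ℝ) 1)).real {x : ℝ | ⌊x * 2 ^ n⌋₊ = j} = 1 / 2 ^ n := by
  have h2 : (0 : ℝ) < 2 ^ n := by positivity
  have hm : MeasurableSet {x : ℝ | ⌊x * 2 ^ n⌋₊ = j} := by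
    have h1 : Measurable fun x : ℝ => ⌊x * 2 ^ n⌋₊ :=
      Nat.measurable_floor.comp (measurable_id.mul_const _)
    exact h1 (measurableSet_singleton j)
  have hj' : (j : ℝ) + 1 ≤ 2 ^ n := by exact_mod_cast hj
  have e : {x : ℝ | ⌊x * 2 ^ n⌋₊ = j} ∩ Ico (0 : ℝ) 1 = Ico ((j : ℝ) / 2 ^ n) ((j + 1) / 2 ^ n) := by
    ext x
    constructor
    · rintro ⟨h1, h3⟩
      exact (floor_iff h3.1 n j).1 h1
    · intro h1
      have h0 : 0 ≤ x := le_trans (by positivity) h1.1
      refine ⟨(floor_iff h0 n j).2 h1, h0, lt_of_lt_of_le h1.2 ?_⟩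
      rw [div_le_one h2]
      exact hj'
  rw [measureReal_def, Measure.restrict_apply hm, e, Real.volume_Ico, ENNReal.toReal_ofReal]
  · ring
  · rw [← sub_div]
    have : (j : ℝ) + 1 - j = 1 := by ring
    rw [this]
    positivity

lemma unif (n a : ℕ) (ha : a < 2 ^ n) :
    (volume.restrict (Ico (0 : ℝ) 1)).real {x : ℝ | R x n = a} = 1 / 2 ^ n := by
  obtain ⟨j, hj, h⟩ := cell n a ha
  rw [← vol_cell hj]
  rw [measureReal_def, measureReal_def]
  congr 1
  refine measure_congr ?_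
  filter_upwards [ae_restrict_mem measurableSet_Ico] with x hx
  exact propext (h x hx)

lemma univ_real : (volume.restrict (Ico (0 : ℝ) 1)).real univ = 1 := by
  rw [measureReal_def, Measure.restrict_apply MeasurableSet.univ, univ_inter, Real.volume_Ico]
  simp

/-- a block of zeros -/
lemma floor_block {x : ℝ} {N l : ℕ} {δ : ℝ} (h1 : (N : ℝ) / 2 ^ l ≤ x) (h2 : x < N / 2 ^ l + δ)
    {j : ℕ} (hj : l ≤ j) (hδ : δ * 2 ^ j ≤ 1) : ⌊x * 2 ^ j⌋₊ = N * 2 ^ (j - l) := by
  have h2j : (0 : ℝ) < 2 ^ j := by positivity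
  have hx0 : 0 ≤ x := le_trans (by positivity) h1
  have e : (N : ℝ) / 2 ^ l * 2 ^ j = ((N * 2 ^ (j - l) : ℕ) : ℝ) := by
    have : (2 : ℝ) ^ j = 2 ^ l * 2 ^ (j - l) := by rw [← pow_add]; congr 1; omega
    push_cast
    rw [this]
    field_simp
  rw [Nat.floor_eq_iff (by positivity)]
  constructor
  · rw [← e]
    exact mul_le_mul_of_nonneg_right h1 h2j.le
  · have : x * 2 ^ j < (N / 2 ^ l + δ) * 2 ^ j := mul_lt_mul_of_pos_right h2 h2j
    rw [add_mul, e] at this
    linarith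

lemma R_block {x : ℝ} {N l : ℕ} {δ : ℝ} (hδ0 : 0 ≤ δ) (h1 : (N : ℝ) / 2 ^ l ≤ x)
    (h2 : x < N / 2 ^ l + δ) {n : ℕ} (hn : l ≤ n) (hδ : δ * 2 ^ n ≤ 1) : R x n = R x l := by
  induction n, hn using Nat.le_induction with
  | base => rfl
  | succ n hn ih =>
    have h3 : δ * 2 ^ n ≤ 1 := by
      refine le_trans ?_ hδ
      exact mul_le_mul_of_nonneg_left (pow_le_pow_right₀ (by norm_num) (by omega)) hδ0
    rw [R_succ, ih h3]
    have h4 : dg x n = 0 := by
      unfold dg
      rw [floor_block h1 h2 (by omega) hδ]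
      have : n + 1 - l = (n - l) + 1 := by omega
      rw [this, pow_succ, ← mul_assoc]
      omega
    rw [h4]
    simp

/-- the number of primes `p ≤ n` for which the `p`-rough part of `s p` is prime -/
def cn (s : ℕ → ℕ) (n : ℕ) : ℕ :=
  ((Finset.range (n + 1)).filter (fun p => p.Prime ∧ (roughPart p (s p)).Prime)).card

lemma cn_ge {s : ℕ → ℕ} {k n : ℕ} (h : ∀ p : ℕ, p.Prime → k < p → p ≤ n → (roughPart p (s p)).Prime) :
    Nat.primeCounting n ≤ cn s n + Nat.primeCounting k := by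
  have e : ∀ m : ℕ, Nat.primeCounting m = ((Finset.range (m + 1)).filter Nat.Prime).card := by
    intro m
    rw [Nat.primeCounting, Nat.primeCounting', Nat.count_eq_card_filter_range]
  rw [e n, e k]
  unfold cn
  have hsub : (Finset.range (n + 1)).filter Nat.Prime ⊆
      ((Finset.range (n + 1)).filter (fun p => p.Prime ∧ (roughPart p (s p)).Prime)) ∪
        (Finset.range (k + 1)).filter Nat.Prime := by
    intro p hp
    simp only [Finset.mem_filter, Finset.mem_range, Finset.mem_union] at hp ⊢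
    by_cases hk : k < p
    · exact Or.inl ⟨hp.1, hp.2, h p hp.2 hk (by omega)⟩
    · exact Or.inr ⟨by omega, hp.2⟩
  exact (Finset.card_le_card hsub).trans (Finset.card_union_le _ _)

lemma cn_mono (s : ℕ → ℕ) : Monotone (cn s) := by
  intro a b hab
  unfold cn
  refine Finset.card_le_card (Finset.filter_subset_filter _ ?_)
  exact Finset.range_subset_range.2 (by omega)

lemma window {K k n : ℕ} {s : ℕ → ℕ} (hG : G K k (s k)) (hn : n ≤ K * k)
    (hs : ∀ p, k < p → p ≤ n → s p = s k) {p : ℕ} (hkp : k < p) (hpn : p ≤ n) :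
    (roughPart p (s p)).Prime := by
  obtain ⟨g1, g2, g3⟩ := hG
  rw [hs p hkp hpn]
  have := roughPart_shift (j := p) g1.two_le hkp.le g2 (by omega) rfl 0
  rw [pow_zero, mul_one] at this
  rw [this]
  exact g2

/-- long blocks of zeros after good levels produce many exponents -/
lemma point {t L x : ℝ} {K : ℕ} (ht0 : 0 < t) (hL : 0 < L) (hK : 1 / t < K)
    (h : ∃ᶠ k : ℕ in atTop, ∃ N : ℕ, G K k (R x k) ∧ (N : ℝ) / 2 ^ k < x ∧
      x < N / 2 ^ k + 2 * (L * (2 / (L * 2 ^ k)) ^ (1 / t))) {ε : ℝ} (hε : 0 < ε) :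
    ∃ᶠ n : ℕ in atTop, (1 - t - ε) * Nat.primeCounting n < cn (R x) n := by
  set τ := t + ε / 4 with hτ
  have hτ0 : 0 < τ := by positivity
  have hτt : t < τ := by rw [hτ]; linarith
  have hinv : 1 / τ < 1 / t := one_div_lt_one_div_of_lt ht0 hτt
  -- conditions on `k`
  have hdiv : Tendsto (fun k : ℕ => (k : ℝ) / τ) atTop atTop :=
    tendsto_natCast_atTop_atTop.atTop_div_const hτ0
  have c1 := hdiv.eventually (pi_ratio (t := τ) (ε := ε / 4) hτ0 (by linarith))
  have c2 : ∀ᶠ k : ℕ in atTop, 2 * (L * (2 / (L * 2 ^ k)) ^ (1 / t)) * 2 ^ ⌊(k : ℝ) / τ⌋₊ ≤ 1 := by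
    have hlin : ∀ᶠ k : ℕ in atTop, Real.log (2 * (L * (2 / L) ^ (1 / t))) ≤
        (Real.log 2 * (1 / t - 1 / τ)) * k :=
      (tendsto_natCast_atTop_atTop.const_mul_atTop (mul_pos (Real.log_pos (by norm_num))
        (by linarith))).eventually_ge_atTop _
    filter_upwards [hlin] with k hk
    have e1 : (2 / (L * 2 ^ k)) ^ (1 / t) = (2 / L) ^ (1 / t) * Real.exp (-(Real.log 2 * (1 / t) * k)) := by
      have e2 : (2 / (L * 2 ^ k)) = (2 / L) * Real.exp (-(Real.log 2 * k)) := by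
        rw [Real.exp_neg, mul_comm (Real.log 2), Real.exp_nat_mul, Real.exp_log two_pos]
        field_simp
      rw [e2, Real.mul_rpow (by positivity) (Real.exp_pos _).le, ← Real.exp_mul]
      congr 2
      ring
    have e3 : (2 : ℝ) ^ ⌊(k : ℝ) / τ⌋₊ ≤ Real.exp (Real.log 2 * (1 / τ) * k) := by
      have h1 : ((⌊(k : ℝ) / τ⌋₊ : ℕ) : ℝ) ≤ k / τ := Nat.floor_le (by positivity)
      calc (2 : ℝ) ^ ⌊(k : ℝ) / τ⌋₊ = Real.exp (⌊(k : ℝ) / τ⌋₊ * Real.log 2) := by
            rw [Real.exp_nat_mul, Real.exp_log two_pos]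
        _ ≤ Real.exp (k / τ * Real.log 2) := by
            apply Real.exp_le_exp.2
            exact mul_le_mul_of_nonneg_right h1 (Real.log_nonneg (by norm_num))
        _ = _ := by congr 1; ring
    have hA : 0 < 2 * (L * (2 / L) ^ (1 / t)) := by positivity
    rw [e1]
    calc 2 * (L * ((2 / L) ^ (1 / t) * Real.exp (-(Real.log 2 * (1 / t) * k)))) * 2 ^ ⌊(k : ℝ) / τ⌋₊
        ≤ 2 * (L * ((2 / L) ^ (1 / t) * Real.exp (-(Real.log 2 * (1 / t) * k)))) *
          Real.exp (Real.log 2 * (1 / τ) * k) := by gcongr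
      _ = Real.exp (Real.log (2 * (L * (2 / L) ^ (1 / t)))) *
          (Real.exp (-(Real.log 2 * (1 / t) * k)) * Real.exp (Real.log 2 * (1 / τ) * k)) := by
          rw [Real.exp_log hA]; ring
      _ = Real.exp (Real.log (2 * (L * (2 / L) ^ (1 / t))) - (Real.log 2 * (1 / t - 1 / τ)) * k) := by
          rw [← Real.exp_add, ← Real.exp_add]
          congr 1
          ring
      _ ≤ 1 := by
          rw [Real.exp_le_one_iff]
          linarith
  rw [frequently_atTop]
  intro N0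
  have c3 : ∀ᶠ k : ℕ in atTop, (N0 : ℝ) ≤ (k : ℝ) / τ := hdiv.eventually_ge_atTop _
  obtain ⟨k, ⟨N, hG, h1, h2⟩, ⟨a1, a2⟩, a3, a4⟩ := (h.and_eventually (c1.and (c2.and c3))).exists
  set n := ⌊(k : ℝ) / τ⌋₊ with hn
  have hn0 : (0 : ℝ) ≤ (k : ℝ) / τ := by positivity
  refine ⟨n, Nat.le_floor a4, ?_⟩
  have hδ0 : 0 ≤ 2 * (L * (2 / (L * 2 ^ k)) ^ (1 / t)) := by positivity
  have hnK : n ≤ K * k := by
    have h3 : (n : ℝ) ≤ k / τ := Nat.floor_le hn0
    have h4 : (k : ℝ) / τ ≤ K * k := by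
      rw [div_eq_mul_one_div, mul_comm (K : ℝ)]
      exact mul_le_mul_of_nonneg_left (by linarith) (Nat.cast_nonneg k)
    exact_mod_cast h3.trans h4
  have h5 := cn_ge (s := R x) (k := k) (n := n) (fun p _ hkp hpn =>
    window hG hnK (fun p hkp hpn => R_block hδ0 h1.le h2 hkp.le (by
      refine le_trans ?_ a3
      exact mul_le_mul_of_nonneg_left (pow_le_pow_right₀ (by norm_num) hpn) hδ0)) hkp hpn)
  have h6 : τ * ((k : ℝ) / τ) = k := by field_simp
  rw [h6, Nat.floor_natCast] at a1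
  have h7 : (Nat.primeCounting n : ℝ) ≤ cn (R x) n + Nat.primeCounting k := by exact_mod_cast h5
  have h8 : (0 : ℝ) < ε / 2 * Nat.primeCounting n := by positivity
  have h9 : (τ + ε / 4) * (Nat.primeCounting n : ℝ) = (t + ε / 2) * Nat.primeCounting n := by
    rw [hτ]; ring
  have h10 : (1 - t - ε) * (Nat.primeCounting n : ℝ) = Nat.primeCounting n -
      (t + ε / 2) * Nat.primeCounting n - ε / 2 * Nat.primeCounting n := by ring
  rw [h10]
  linarith

/-- almost surely small primes occur finitely often -/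
lemma ae_bad (K : ℕ) : ∀ᵐ x : ℝ ∂(volume.restrict (Ico (0 : ℝ) 1)),
    ∀ᶠ p : ℕ in atTop, ¬ ((roughPart p (R x p)).Prime ∧ roughPart p (R x p) ≤ K * p) := by
  classical
  obtain ⟨P, hP⟩ := eventually_atTop.1 (bad_decay K 1)
  set μ := volume.restrict (Ico (0 : ℝ) 1) with hμ
  set F : ℕ → Finset ℕ := fun p =>
    (Finset.range (2 ^ p)).filter (fun N => (roughPart p N).Prime ∧ roughPart p N ≤ K * p) with hF
  have hset : ∀ p, {x : ℝ | (roughPart p (R x p)).Prime ∧ roughPart p (R x p) ≤ K * p} =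
      ⋃ N ∈ F p, {x | R x p = N} := by
    intro p
    ext x
    simp only [mem_ofPred_eq, mem_iUnion, exists_prop, hF, Finset.mem_filter, Finset.mem_range]
    constructor
    · intro h
      exact ⟨R x p, ⟨R_lt x p, h⟩, rfl⟩
    · rintro ⟨N, ⟨_, h⟩, h2⟩
      rw [h2]; exact h
  have hvol : ∀ p, P ≤ p → μ {x : ℝ | (roughPart p (R x p)).Prime ∧ roughPart p (R x p) ≤ K * p} ≤
      ENNReal.ofReal (Real.exp (-(1 / 5 * p))) := by
    intro p hp
    have h2p : (0 : ℝ) < 2 ^ p := by positivity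
    have hcard := card_bad K p (Z := 2 ^ p) (by positivity) (F p) (fun N hN => by
      simp only [hF, Finset.mem_filter, Finset.mem_range] at hN
      refine ⟨?_, hN.2.1, hN.2.2⟩
      have : (N : ℝ) < ((2 ^ p : ℕ) : ℝ) := by exact_mod_cast hN.1
      push_cast at this
      exact this.le)
    rw [hset]
    calc μ (⋃ N ∈ F p, {x | R x p = N}) ≤ ∑ N ∈ F p, μ {x | R x p = N} :=
          measure_biUnion_finset_le _ _
      _ = ∑ _N ∈ F p, ENNReal.ofReal (1 / 2 ^ p) := by
          refine Finset.sum_congr rfl fun N hN => ?_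
          have hN' : N < 2 ^ p := by
            simp only [hF, Finset.mem_filter, Finset.mem_range] at hN
            exact hN.1
          rw [← unif p N hN', ofReal_measureReal]
      _ = ENNReal.ofReal ((F p).card * (1 / 2 ^ p)) := by
          rw [Finset.sum_const, nsmul_eq_mul, ENNReal.ofReal_mul (Nat.cast_nonneg _),
            ENNReal.ofReal_natCast]
      _ ≤ _ := by
          refine ENNReal.ofReal_le_ofReal (le_trans ?_ (hP p hp))
          rw [mul_one_div]
          simp only [Nat.cast_one, one_mul]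
          exact div_le_div_of_nonneg_right hcard h2p.le
  have hsum : Summable (fun p : ℕ => Real.exp (-(1 / 5 * p))) := by
    have : Summable (fun p : ℕ => (Real.exp (-(1 / 5))) ^ p) :=
      summable_geometric_of_lt_one (Real.exp_pos _).le (by
        rw [← Real.exp_zero]
        exact Real.exp_lt_exp.2 (by norm_num))
    refine this.congr fun p => ?_
    rw [← Real.exp_nat_mul]
    congr 1
    ring
  have h1 : ∑' p : ℕ, μ (if P ≤ p then
      {x : ℝ | (roughPart p (R x p)).Prime ∧ roughPart p (R x p) ≤ K * p} else ∅) ≠ ⊤ := by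
    refine ne_top_of_le_ne_top (ENNReal.ofReal_ne_top (r := ∑' p : ℕ, Real.exp (-(1 / 5 * p)))) ?_
    rw [ENNReal.ofReal_tsum_of_nonneg (fun p => (Real.exp_pos _).le) hsum]
    refine ENNReal.tsum_le_tsum fun p => ?_
    split_ifs with h2
    · exact hvol p h2
    · simp
  filter_upwards [ae_eventually_notMem h1] with x hx
  filter_upwards [hx, eventually_ge_atTop P] with p hp hpP
  rw [if_pos hpP] at hp
  exact hp

end Pool.Agent.R477.TE
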