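import Mathlib
import Pool.Agent.R477.TE.Dig
import Pool.Agent.W66.LT
import Pool.Agent.R331.MT.Three

/-!
# Hausdorff dimension of the exceptional set, on the unit interval
-/

set_option autoImplicit false

namespace Pool.Agent.R477.TE

open Filter Topology Set MeasureTheory
open scoped ENNReal
open Pool.Agent.R500.MG (roughPart G)

/-- the law gives infinitely many exponents -/
lemma ae_inf : ∀ᵐ x : ℝ ∂(volume.restrict (Ico (0 : ℝ) 1)), dg x 0 = 1 →
    ∃ᶠ p : ℕ in atTop, p.Prime ∧ (roughPart p (R x p)).Prime := by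
  have hfull : Pool.Agent.W66L.Full 2 (volume.restrict (Ico (0 : ℝ) 1)) (fun n x => R x n) := by
    refine ⟨R_meas, fun n x => R_compat x n, fun n a ha => ?_⟩
    rw [univ_real]
    have := unif n a ha
    push_cast
    exact this
  have hfin : IsFiniteMeasure (volume.restrict (Ico (0 : ℝ) 1)) :=
    ⟨by rw [Measure.restrict_apply MeasurableSet.univ, univ_inter, Real.volume_Ico]; simp⟩
  filter_upwards [Pool.Agent.W66L.law_all le_rfl hfull] with x hx h0
  have hc : (R x 1).Coprime 2 := by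
    have : R x 1 = 1 := by simp [R, h0]
    rw [this]
    exact Nat.coprime_one_left 2
  have h1 := hx hc
  have hκ : 0 < Real.exp Real.eulerMascheroniConstant / Real.log ((2 : ℕ) : ℝ) :=
    div_pos (Real.exp_pos _) (Real.log_pos (by norm_num))
  have h2 := h1.eventually_const_lt (show Real.exp Real.eulerMascheroniConstant /
    Real.log ((2 : ℕ) : ℝ) / 2 < Real.exp Real.eulerMascheroniConstant / Real.log ((2 : ℕ) : ℝ) by linarith)
  by_contra hcon
  rw [not_frequently] at hcon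
  obtain ⟨P, hP⟩ := eventually_atTop.1 hcon
  have h3 : ∀ n, Pool.Agent.W66L.cntR (fun p => R x p) n ≤ P := by
    intro n
    unfold Pool.Agent.W66L.cntR
    have hsub : ((Finset.Icc 1 n).filter (fun p => p.Prime ∧
        (Pool.Agent.H305R2.roughPart p (R x p)).Prime)) ⊆ Finset.range P := by
      intro p hp
      rw [Finset.mem_filter] at hp
      rw [Finset.mem_range]
      by_contra hlt
      exact hP p (by omega) hp.2
    have := Finset.card_le_card hsub
    rwa [Finset.card_range] at this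
  have h4 : ∀ᶠ n : ℕ in atTop, (P : ℝ) ≤
      Real.exp Real.eulerMascheroniConstant / Real.log ((2 : ℕ) : ℝ) / 2 * Real.log n :=
    ((Real.tendsto_log_atTop.comp tendsto_natCast_atTop_atTop).const_mul_atTop
      (by positivity)).eventually_ge_atTop _
  have h6 : ∀ᶠ n : ℕ in atTop, 0 < Real.log n :=
    (Real.tendsto_log_atTop.comp tendsto_natCast_atTop_atTop).eventually_gt_atTop _
  obtain ⟨n, hn1, hn2, hn3⟩ := (h2.and (h4.and h6)).exists
  rw [lt_div_iff₀ hn3] at hn1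
  have h5 : (Pool.Agent.W66L.cntR (fun p => R x p) n : ℝ) ≤ P := by exact_mod_cast h3 n
  linarith

/-- almost every point has infinitely many good levels -/
lemma ae_good (K : ℕ) : ∀ᵐ x : ℝ, x ∈ Ico (0 : ℝ) 1 → dg x 0 = 1 →
    ∃ᶠ k : ℕ in atTop, G K k (R x k) := by
  have h : ∀ᵐ x : ℝ ∂(volume.restrict (Ico (0 : ℝ) 1)), dg x 0 = 1 →
      ∃ᶠ k : ℕ in atTop, G K k (R x k) := by
    filter_upwards [ae_inf, ae_bad K] with x h1 h2 h0
    refine ((h1 h0).and_eventually h2).mono fun k ⟨⟨a1, a2⟩, a3⟩ => ⟨a1, a2, ?_⟩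
    by_contra hcon
    exact a3 ⟨a2, by
      push Not at hcon
      exact hcon⟩
  rwa [ae_restrict_iff' measurableSet_Ico] at h

/-- the property of the limit superior -/
def Pt (t x : ℝ) : Prop :=
  ∀ ε : ℝ, 0 < ε → ∃ᶠ n : ℕ in atTop, (1 - t - ε) * Nat.primeCounting n < cn (R x) n

lemma affine_ae {P : ℝ → Prop} (h : ∀ᵐ β : ℝ, P β) (u : ℝ) {L : ℝ} (hL : 0 < L) :
    ∀ᵐ x : ℝ, P (u + L * x) := by
  rw [ae_iff] at h ⊢
  have e : {x : ℝ | ¬ P (u + L * x)} = (fun x => L * x) ⁻¹' ((fun x => u + x) ⁻¹' {β | ¬ P β}) := rfl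
  rw [e, Real.volume_preimage_mul_left hL.ne', measure_preimage_add, h, mul_zero]

/-- the dimension in a closed interval -/
lemma dim_Icc {u L s t : ℝ} (hu : 0 < u) (hL : 0 < L) (huL : u + L < 1)
    (hd : ∀ x ∈ Icc u (u + L), dg x 0 = 1) (hs : 0 < s) (hst : s < t) (ht : t < 1) :
    ENNReal.ofReal s ≤ dimH {β : ℝ | β ∈ Icc u (u + L) ∧ Pt t β} := by
  have ht0 : 0 < t := by linarith
  have hti : 1 < 1 / t := by rw [lt_div_iff₀ ht0]; linarith
  obtain ⟨K, hK⟩ := exists_nat_gt (1 / t)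
  set ρ : ℕ → ℝ := fun k => 2 / (L * 2 ^ k) with hρ
  have hρ0 : ∀ k, 0 < ρ k := fun k => by rw [hρ]; positivity
  have h2t : Tendsto (fun k : ℕ => (2 : ℝ) ^ k) atTop atTop :=
    tendsto_pow_atTop_atTop_of_one_lt (by norm_num)
  have hρt : Tendsto ρ atTop (𝓝 0) := (h2t.const_mul_atTop hL).const_div_atTop _
  -- the residues of a dyadic interval of level `k`
  set C : ℕ → Set ℝ := fun k => {c | ∃ y : ℝ, y ∈ Ico (0 : ℝ) 1 ∧ G K k (R y k) ∧
    u + L * c = ⌊y * 2 ^ k⌋₊ / 2 ^ k + L * (ρ k) ^ (1 / t)} with hC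
  set E' : Set ℝ := {x | x ∈ Icc (0 : ℝ) 1 ∧ Pt t (u + L * x)} with hE'
  have hfull : ∀ᵐ x ∂(volume : Measure ℝ), x ∈ Ioo (0 : ℝ) 1 → ∃ᶠ k in atTop, ∃ c ∈ C k, |x - c| < ρ k := by
    filter_upwards [affine_ae (ae_good K) u hL] with x hx hx01
    have hLx : 0 < L * x := mul_pos hL hx01.1
    have hLx1 : L * x ≤ L := by nlinarith [hx01.2]
    have hmem : u + L * x ∈ Icc u (u + L) := ⟨by linarith, by linarith⟩
    have hmem' : u + L * x ∈ Ico (0 : ℝ) 1 := ⟨by linarith, by linarith⟩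
    refine ((hx hmem' (hd _ hmem)).and_eventually (hρt.eventually_lt_const zero_lt_one)).mono
      fun k ⟨hk1, hk2⟩ => ?_
    set β := u + L * x with hβ
    set N := ⌊β * 2 ^ k⌋₊ with hN
    have h2k : (0 : ℝ) < 2 ^ k := by positivity
    obtain ⟨hlo, hhi⟩ := (floor_iff hmem'.1 k N).1 rfl
    have hr0 : 0 < (ρ k) ^ (1 / t) := Real.rpow_pos_of_pos (hρ0 k) _
    have hr1 : (ρ k) ^ (1 / t) < ρ k := by
      calc (ρ k) ^ (1 / t) < (ρ k) ^ (1 : ℝ) :=
            Real.rpow_lt_rpow_of_exponent_gt (hρ0 k) hk2 hti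
        _ = ρ k := Real.rpow_one _
    refine ⟨(N / 2 ^ k + L * (ρ k) ^ (1 / t) - u) / L, ⟨β, hmem', hk1, by rw [← hN]; field_simp; ring⟩, ?_⟩
    have e1 : x - (N / 2 ^ k + L * (ρ k) ^ (1 / t) - u) / L =
        (β - N / 2 ^ k) / L - (ρ k) ^ (1 / t) := by
      rw [hβ]; field_simp; ring
    rw [e1]
    have h3 : 0 ≤ β - N / 2 ^ k := by linarith
    have h4 : β - N / 2 ^ k ≤ 1 / 2 ^ k := by
      have : ((N : ℝ) + 1) / 2 ^ k = N / 2 ^ k + 1 / 2 ^ k := add_div _ _ _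
      linarith
    have h5 : (β - N / 2 ^ k) / L < ρ k := by
      rw [div_lt_iff₀ hL]
      have e2 : ρ k * L = 2 / 2 ^ k := by rw [hρ]; field_simp
      rw [e2]
      have : (1 : ℝ) / 2 ^ k < 2 / 2 ^ k := div_lt_div_of_pos_right (by norm_num) h2k
      linarith
    have h6 : 0 ≤ (β - N / 2 ^ k) / L := div_nonneg h3 hL.le
    rw [abs_lt]
    constructor <;> linarith
  have hsub : ∀ x, x ∈ Icc (0 : ℝ) 1 → (∃ᶠ k in atTop, ∃ c ∈ C k, |x - c| < ρ k ^ (1 / t)) → x ∈ E' := by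
    intro x hx hfr
    have hLx : 0 ≤ L * x := mul_nonneg hL.le hx.1
    have hLx1 : L * x ≤ L := by nlinarith [hx.2]
    have hmem' : u + L * x ∈ Ico (0 : ℝ) 1 := ⟨by linarith, by linarith⟩
    have hsmall : ∀ᶠ k in atTop, 2 * (L * (ρ k) ^ (1 / t)) * 2 ^ k ≤ 1 := by
      have h1 : ∀ᶠ k in atTop, (ρ k) ^ (1 / t - 1) ≤ 1 / 4 := by
        have h2 : Tendsto (fun k => (ρ k) ^ (1 / t - 1)) atTop (𝓝 0) := by
          have h3 := hρt.rpow_const (p := 1 / t - 1) (Or.inr (by linarith))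
          rwa [Real.zero_rpow (by linarith)] at h3
        exact (h2.eventually_lt_const (by norm_num)).mono fun k hk => hk.le
      filter_upwards [h1] with k hk
      have e : (ρ k) ^ (1 / t) = (ρ k) ^ (1 / t - 1) * ρ k := by
        rw [← Real.rpow_add_one (hρ0 k).ne']
        congr 1
        ring
      have e2 : ρ k * (L * 2 ^ k) = 2 := by rw [hρ]; field_simp
      calc 2 * (L * (ρ k) ^ (1 / t)) * 2 ^ k = 2 * (ρ k) ^ (1 / t - 1) * (ρ k * (L * 2 ^ k)) := by
            rw [e]; ring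
        _ = 4 * (ρ k) ^ (1 / t - 1) := by rw [e2]; ring
        _ ≤ 1 := by linarith
    refine ⟨hx, fun ε hε => point (K := K) (L := L) ht0 hL hK
      ((hfr.and_eventually hsmall).mono fun k hk => ?_) hε⟩
    obtain ⟨⟨c, ⟨y, hy, hG, hc⟩, hxc⟩, hsm⟩ := hk
    rw [abs_lt] at hxc
    set N := ⌊y * 2 ^ k⌋₊ with hN
    have q1 : (N : ℝ) / 2 ^ k < u + L * x := by
      have := mul_lt_mul_of_pos_left hxc.1 hL
      nlinarith
    have q2 : u + L * x < N / 2 ^ k + 2 * (L * (ρ k) ^ (1 / t)) := by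
      have := mul_lt_mul_of_pos_left hxc.2 hL
      nlinarith
    refine ⟨N, ?_, q1, q2⟩
    -- the residue at `u + L x` is that at `y`
    have h1 : ⌊(u + L * x) * 2 ^ k⌋₊ = N := by
      have := floor_block q1.le q2 le_rfl hsm
      simpa using this
    obtain ⟨j, -, hj⟩ := cell k (R y k) (R_lt y k)
    have h2 : R (u + L * x) k = R y k := by
      rw [hj _ hmem', h1]
      exact (hj y hy).1 rfl
    rw [h2]
    exact hG
  -- positive Hausdorff measure
  have key : ENNReal.ofReal (1 / 20) ≤ Measure.hausdorffMeasure s E' := by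
    rw [Measure.hausdorffMeasure_apply]
    refine le_iSup₂_of_le 1 one_pos ?_
    refine le_iInf fun A => le_iInf fun hcov => le_iInf fun _ => ?_
    refine (Pool.Agent.R331.MT.content hs hst ht.le C ρ hρ0 hρt hfull A
      (fun x hx => hcov (hsub x hx.1 hx.2))).trans ?_
    refine ENNReal.tsum_le_tsum fun n => ?_
    by_cases hne : (A n).Nonempty
    · rw [iSup_pos hne]
    · have : A n = ∅ := not_nonempty_iff_eq_empty.mp hne
      rw [iSup_neg hne]
      simp [this, hs]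
  have h1 : ENNReal.ofReal s ≤ dimH E' := by
    have h3 := le_dimH_of_hausdorffMeasure_ne_zero (s := E') (d := s.toNNReal) (by
      rw [Real.coe_toNNReal _ hs.le]
      intro h0
      rw [h0] at key
      simp at key)
    exact h3
  -- the affine map
  have hlip : LipschitzWith (Real.toNNReal (1 / L)) (fun β : ℝ => (β - u) / L) := by
    refine LipschitzWith.of_dist_le_mul fun a b => ?_
    rw [Real.coe_toNNReal _ (by positivity), Real.dist_eq, Real.dist_eq, ← sub_div, abs_div,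
      abs_of_pos hL]
    apply le_of_eq
    rw [show a - u - (b - u) = a - b by ring]
    ring
  have h2 : E' ⊆ (fun β : ℝ => (β - u) / L) '' {β : ℝ | β ∈ Icc u (u + L) ∧ Pt t β} := by
    intro x hx
    refine ⟨u + L * x, ⟨⟨?_, ?_⟩, hx.2⟩, by simp only; field_simp; ring⟩
    · have := mul_nonneg hL.le hx.1.1
      linarith
    · have := mul_le_mul_of_nonneg_left hx.1.2 hL.le
      linarith
  exact h1.trans ((dimH_mono h2).trans (hlip.dimH_image_le _))

/-- the dimension in a dyadic interval of odd residues -/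
lemma dim_cell {m j : ℕ} (hj : j < 2 ^ m) (hd : ∀ x : ℝ, x ∈ Ico (0 : ℝ) 1 → ⌊x * 2 ^ m⌋₊ = j → dg x 0 = 1)
    {t : ℝ} (ht0 : 0 < t) (ht : t < 1) :
    ENNReal.ofReal t ≤ dimH {x : ℝ | x ∈ Ico (0 : ℝ) 1 ∧ ⌊x * 2 ^ m⌋₊ = j ∧ Pt t x} := by
  refine le_of_forall_lt fun b hb => ?_
  obtain ⟨c, hc1, hc2⟩ := ENNReal.lt_iff_exists_nnreal_btwn.mp hb
  have hc3 : (c : ℝ) < t := by
    rw [← ENNReal.ofReal_coe_nnreal] at hc2
    exact (ENNReal.ofReal_lt_ofReal_iff_of_nonneg c.2).mp hc2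
  set s : ℝ := max c (t / 2) with hs
  have hs0 : 0 < s := lt_of_lt_of_le (by positivity) (le_max_right _ _)
  have hs1 : s < t := max_lt hc3 (by linarith)
  refine lt_of_lt_of_le hc1 ?_
  have h1 : (c : ℝ≥0∞) ≤ ENNReal.ofReal s := by
    rw [← ENNReal.ofReal_coe_nnreal]
    exact ENNReal.ofReal_le_ofReal (le_max_left _ _)
  have h2m : (0 : ℝ) < 2 ^ m := by positivity
  have hj1 : (j : ℝ) + 1 ≤ 2 ^ m := by exact_mod_cast hj
  have hj0 : (0 : ℝ) ≤ j := Nat.cast_nonneg j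
  set L : ℝ := 1 / (3 * 2 ^ m) with hL
  have hL0 : 0 < L := by positivity
  have e3 : 3 * L = 1 / 2 ^ m := by rw [hL]; field_simp
  set u : ℝ := j / 2 ^ m + L with hu
  have hjm : 0 ≤ (j : ℝ) / 2 ^ m := by positivity
  have hjm1 : (j : ℝ) / 2 ^ m + 3 * L ≤ 1 := by
    rw [e3, ← add_div, div_le_one h2m]; exact hj1
  have hin : ∀ x ∈ Icc u (u + L), x ∈ Ico (0 : ℝ) 1 ∧ ⌊x * 2 ^ m⌋₊ = j := by
    intro x hx
    have h0 : 0 ≤ x := by linarith [hx.1]
    refine ⟨⟨h0, by linarith [hx.2]⟩, (floor_iff h0 m j).2 ⟨by linarith [hx.1], ?_⟩⟩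
    rw [add_div, ← e3]
    linarith [hx.2]
  refine h1.trans ((dim_Icc (u := u) (L := L) (by linarith) hL0 (by linarith)
    (fun x hx => hd x (hin x hx).1 (hin x hx).2) hs0 hs1 ht).trans (dimH_mono fun β hβ => ?_))
  exact ⟨(hin β hβ.1).1, (hin β hβ.1).2, hβ.2⟩

end Pool.Agent.R477.TE
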