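import Mathlib
import Pool.Agent.R477.TE.DimX
import Pool.Agent.R477.TE.Adic

/-!
# From the unit interval to the 2-adic integers
-/

set_option autoImplicit false

namespace Pool.Agent.R477.TE

open Filter Topology Set MeasureTheory
open scoped ENNReal NNReal
open Pool.Agent.R500.MG (roughPart pi_gt_log)

/-- the 2-adic integer with the binary digits of `x` -/
noncomputable def psi (x : ℝ) : ℤ_[2] := ∑' i : ℕ, (dg x i : ℤ_[2]) * 2 ^ i

lemma norm_two_pow (i : ℕ) : ‖(2 : ℤ_[2]) ^ i‖ = (1 / 2 : ℝ) ^ i := by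
  have h := PadicInt.norm_p_pow (p := 2) i
  rw [zpow_neg, zpow_natCast] at h
  rw [one_div, inv_pow]
  simpa using h

lemma summ' (x : ℝ) (n : ℕ) : Summable fun i : ℕ => (dg x (i + n) : ℤ_[2]) * 2 ^ i := by
  refine Summable.of_norm_bounded (g := fun i : ℕ => (1 / 2 : ℝ) ^ i)
    (summable_geometric_of_lt_one (by norm_num) (by norm_num)) fun i => ?_
  rw [norm_mul, norm_two_pow]
  have h1 : ‖(dg x (i + n) : ℤ_[2])‖ ≤ 1 := PadicInt.norm_le_one _
  have h2 : (0 : ℝ) ≤ (1 / 2) ^ i := by positivity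
  nlinarith

lemma summ (x : ℝ) : Summable fun i : ℕ => (dg x i : ℤ_[2]) * 2 ^ i := summ' x 0

lemma psi_res (x : ℝ) (n : ℕ) : PadicInt.toZModPow n (psi x) = (R x n : ZMod (2 ^ n)) := by
  have h := (summ x).sum_add_tsum_nat_add n
  have h2 : ∑' i : ℕ, (dg x (i + n) : ℤ_[2]) * 2 ^ (i + n) =
      2 ^ n * ∑' i : ℕ, (dg x (i + n) : ℤ_[2]) * 2 ^ i := by
    rw [← (summ' x n).tsum_mul_left]
    refine tsum_congr fun i => ?_
    rw [pow_add]; ring
  have h3 : ∑ i ∈ Finset.range n, (dg x i : ℤ_[2]) * 2 ^ i = ((R x n : ℕ) : ℤ_[2]) := by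
    unfold R
    push_cast
    rfl
  unfold psi
  rw [← h, h2, h3, map_add, map_mul, map_pow, map_natCast]
  have h4 : (PadicInt.toZModPow (p := 2) n) (2 : ℤ_[2]) ^ n = 0 := by
    have e : (2 : ℤ_[2]) = ((2 : ℕ) : ℤ_[2]) := by norm_num
    rw [e, map_natCast]
    have : (((2 ^ n : ℕ) : ℕ) : ZMod (2 ^ n)) = 0 := ZMod.natCast_self _
    push_cast at this ⊢
    exact this
  rw [h4, zero_mul, add_zero]

lemma psi_val (x : ℝ) (n : ℕ) : (PadicInt.toZModPow n (psi x)).val = R x n := by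
  rw [psi_res, ZMod.val_natCast, Nat.mod_eq_of_lt (R_lt x n)]

lemma M_psi (x : ℝ) (n : ℕ) : M (psi x) n = cn (R x) n := by
  unfold M cn
  congr 1
  refine Finset.filter_congr fun p _ => ?_
  unfold W
  rw [psi_val]

lemma anti_aux {x y : ℝ} (hx : x ∈ Ico (0 : ℝ) 1) (hy : y ∈ Ico (0 : ℝ) 1) {n : ℕ}
    (h : PadicInt.toZModPow n (psi x) = PadicInt.toZModPow n (psi y)) : |x - y| ≤ (1 / 2) ^ n := by
  have h1 : R x n = R y n := by rw [← psi_val x n, h, psi_val]
  obtain ⟨j, -, hj⟩ := cell n (R y n) (R_lt y n)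
  have h2 := (floor_iff hx.1 n j).1 ((hj x hx).1 h1)
  have h3 := (floor_iff hy.1 n j).1 ((hj y hy).1 rfl)
  rw [add_div] at h2 h3
  rw [one_div, inv_pow, ← one_div, abs_le]
  constructor <;> linarith [h2.1, h2.2, h3.1, h3.2]

lemma anti {x y : ℝ} (hx : x ∈ Ico (0 : ℝ) 1) (hy : y ∈ Ico (0 : ℝ) 1) :
    |x - y| ≤ ‖psi x - psi y‖ := by
  by_cases h0 : psi x - psi y = 0
  · have h1 : ∀ n : ℕ, |x - y| ≤ (1 / 2) ^ n := fun n =>
      anti_aux hx hy (by rw [sub_eq_zero.1 h0])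
    rw [h0, norm_zero]
    refine le_of_forall_pos_lt_add fun ε hε => ?_
    obtain ⟨n, hn⟩ := exists_pow_lt_of_lt_one hε (show (1 / 2 : ℝ) < 1 by norm_num)
    rw [zero_add]
    exact (h1 n).trans_lt hn
  · have h1 := PadicInt.norm_eq_zpow_neg_valuation h0
    set v := (psi x - psi y).valuation with hv
    have h2 : PadicInt.toZModPow v (psi x) = PadicInt.toZModPow v (psi y) := by
      rw [← norm_le_iff v, h1]
      simp
    have h3 := anti_aux hx hy h2
    rw [h1]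
    refine h3.trans (le_of_eq ?_)
    rw [one_div, inv_pow, zpow_neg, zpow_natCast]
    norm_num

lemma dim_psi (S : Set ℝ) (hS : S ⊆ Ico (0 : ℝ) 1) : dimH S ≤ dimH (psi '' S) := by
  set f : Ico (0 : ℝ) 1 → ℤ_[2] := fun x => psi x with hf
  have ha : AntilipschitzWith 1 f := by
    refine AntilipschitzWith.of_le_mul_dist fun x y => ?_
    rw [NNReal.coe_one, one_mul, Subtype.dist_eq, Real.dist_eq, dist_eq_norm]
    exact anti x.2 y.2
  set S' : Set (Ico (0 : ℝ) 1) := Subtype.val ⁻¹' S with hS'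
  have h1 : Subtype.val '' S' = S := by
    rw [hS', Subtype.image_preimage_coe]
    exact inter_eq_right.2 hS
  have h2 : dimH S = dimH S' := by
    rw [← h1]
    exact isometry_subtype_coe.dimH_image S'
  have h3 : f '' S' = psi '' S := by
    rw [← h1, image_image]
  rw [h2, ← h3]
  exact ha.le_dimH_image S'

lemma R_mod (x : ℝ) {k n : ℕ} (h : k ≤ n) : R x n % 2 ^ k = R x k := by
  induction n, h using Nat.le_induction with
  | base => exact Nat.mod_eq_of_lt (R_lt x k)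
  | succ n hn ih =>
    rw [← ih, ← R_compat x n, Nat.mod_mod_of_dvd _ (pow_dvd_pow 2 hn)]

/-- **Dimension of the exceptional set in a ball of 2-adic units.** -/
theorem dim_ball {α₀ : ℤ_[2]} (hα : IsUnit α₀) {r : ℝ} (hr : 0 < r) {t : ℝ} (ht0 : 0 < t)
    (ht : t < 1) : ENNReal.ofReal t ≤ dimH {α : ℤ_[2] | α ∈ Metric.ball α₀ r ∧
      ∀ ε : ℝ, 0 < ε → ∃ᶠ n : ℕ in atTop, (1 - t - ε) * Nat.primeCounting n < M α n} := by
  obtain ⟨m0, hm0⟩ := exists_pow_lt_of_lt_one hr (show (1 / 2 : ℝ) < 1 by norm_num)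
  set m := m0 + 1 with hm
  have : NeZero (2 ^ m) := ⟨by positivity⟩
  set a := (PadicInt.toZModPow m α₀).val with ha
  have ha2 : a < 2 ^ m := ZMod.val_lt _
  have hodd : a % 2 = 1 := by
    have h1 : IsUnit (PadicInt.toZModPow m α₀) := hα.map _
    have h2 := ZMod.isUnit_iff_coprime (PadicInt.toZModPow m α₀).val (2 ^ m)
    rw [ZMod.natCast_zmod_val] at h2
    have h3 := h2.1 h1
    rw [← ha, Nat.coprime_pow_right_iff (by omega), Nat.coprime_two_right] at h3
    exact Nat.odd_iff.1 h3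
  obtain ⟨j, hj, hcell⟩ := cell m a ha2
  have hd : ∀ x : ℝ, x ∈ Ico (0 : ℝ) 1 → ⌊x * 2 ^ m⌋₊ = j → dg x 0 = 1 := by
    intro x hx hxj
    have h1 := (hcell x hx).2 hxj
    have h2 := R_mod x (show 1 ≤ m by omega)
    rw [h1, pow_one, hodd] at h2
    have h3 : R x 1 = dg x 0 := by simp [R]
    rw [← h3, ← h2]
  refine (dim_cell hj hd ht0 ht).trans ((dim_psi _ (fun x hx => hx.1)).trans (dimH_mono ?_))
  rintro _ ⟨x, ⟨hx1, hx2, hx3⟩, rfl⟩
  refine ⟨?_, fun ε hε => ?_⟩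
  · rw [Metric.mem_ball, dist_eq_norm]
    have h1 : PadicInt.toZModPow m (psi x) = PadicInt.toZModPow m α₀ := by
      rw [psi_res, (hcell x hx1).2 hx2, ha, ZMod.natCast_zmod_val]
    refine lt_of_le_of_lt ((norm_le_iff m _ _).2 h1) ?_
    rw [zpow_neg, zpow_natCast, ← inv_pow]
    refine lt_of_le_of_lt ?_ hm0
    rw [one_div]
    exact pow_le_pow_of_le_one (by norm_num) (by norm_num) (by omega)
  · simp only [M_psi]
    exact hx3 ε hε

/-- the dimension of the 2-adic integers is at most one -/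
lemma dim_le_one (S : Set ℤ_[2]) : dimH S ≤ 1 := by
  borelize ℤ_[2]
  have h0 : Measure.hausdorffMeasure 1 S ≤ 1 := by
    have : ∀ n : ℕ, NeZero (2 ^ n) := fun n => ⟨by positivity⟩
    have key := Measure.hausdorffMeasure_le_liminf_sum (ι := fun n : ℕ => ZMod (2 ^ n)) (1 : ℝ) S
      (l := atTop) (fun n : ℕ => ((2 : ℝ≥0∞)⁻¹) ^ n)
      (ENNReal.tendsto_pow_atTop_nhds_zero_of_lt_one (by norm_num))
      (fun n i => {γ : ℤ_[2] | PadicInt.toZModPow n γ = i})
      (Eventually.of_forall fun n i => ?_) (Eventually.of_forall fun n γ _ => ?_)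
    · refine key.trans ?_
      have hle : ∀ n : ℕ, ∑ i : ZMod (2 ^ n),
          Metric.ediam {γ : ℤ_[2] | PadicInt.toZModPow n γ = i} ^ (1 : ℝ) ≤ 1 := by
        intro n
        calc ∑ i : ZMod (2 ^ n), Metric.ediam {γ : ℤ_[2] | PadicInt.toZModPow n γ = i} ^ (1 : ℝ)
            ≤ ∑ _i : ZMod (2 ^ n), ((2 : ℝ≥0∞)⁻¹) ^ n := by
              refine Finset.sum_le_sum fun i _ => ?_
              rw [ENNReal.rpow_one]
              exact diam_le n i
          _ = 1 := by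
              rw [Finset.sum_const, Finset.card_univ, ZMod.card, nsmul_eq_mul]
              push_cast
              rw [← mul_pow, ENNReal.mul_inv_cancel (by norm_num) (by norm_num), one_pow]
      exact (liminf_le_liminf (Eventually.of_forall hle)).trans (by simp)
    · exact diam_le n i
    · exact mem_iUnion.2 ⟨_, rfl⟩
  have h1 := dimH_le_of_hausdorffMeasure_ne_top (s := S) (d := 1) (by
    rw [NNReal.coe_one]
    exact ne_top_of_le_ne_top ENNReal.one_ne_top h0)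
  simpa using h1
where
  diam_le (n : ℕ) (i : ZMod (2 ^ n)) :
      Metric.ediam {γ : ℤ_[2] | PadicInt.toZModPow n γ = i} ≤ ((2 : ℝ≥0∞)⁻¹) ^ n := by
    refine Metric.ediam_le fun γ hγ δ hδ => ?_
    have h1 := (norm_le_iff n γ δ).2 (hγ.trans hδ.symm)
    rw [edist_dist, dist_eq_norm]
    have h2 : ((2 : ℝ≥0∞)⁻¹) ^ n = ENNReal.ofReal ((2 : ℝ) ^ (-n : ℤ)) := by
      rw [zpow_neg, zpow_natCast, ENNReal.ofReal_inv_of_pos (by positivity), ← ENNReal.inv_pow,
        ENNReal.ofReal_pow (by norm_num)]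
      norm_num
    rw [h2]
    exact ENNReal.ofReal_le_ofReal h1

/-- **The exceptional set of the law has full Hausdorff dimension.** -/
theorem dim_ball_one {α₀ : ℤ_[2]} (hα : IsUnit α₀) {r : ℝ} (hr : 0 < r) :
    dimH {α : ℤ_[2] | α ∈ Metric.ball α₀ r ∧
      ∀ C : ℝ, ∃ᶠ n : ℕ in atTop, C * Real.log n < M α n} = 1 := by
  refine le_antisymm (dim_le_one _) ?_
  refine le_of_forall_lt fun b hb => ?_
  obtain ⟨c, hc1, hc2⟩ := ENNReal.lt_iff_exists_nnreal_btwn.mp hb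
  have hc3 : (c : ℝ) < 1 := by exact_mod_cast hc2
  set t : ℝ := ((c : ℝ) + 1) / 2 with ht
  have hc0 : (0 : ℝ) ≤ c := c.2
  have ht0 : 0 < t := by rw [ht]; linarith
  have ht1 : t < 1 := by rw [ht]; linarith
  have hct : (c : ℝ) ≤ t := by rw [ht]; linarith
  refine lt_of_lt_of_le hc1 ?_
  have h1 : (c : ℝ≥0∞) ≤ ENNReal.ofReal t := by
    rw [← ENNReal.ofReal_coe_nnreal]
    exact ENNReal.ofReal_le_ofReal hct
  refine h1.trans ((dim_ball hα hr ht0 ht1).trans (dimH_mono fun β hβ => ⟨hβ.1, fun C => ?_⟩))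
  have h2 := hβ.2 ((1 - t) / 2) (by linarith)
  refine (h2.and_eventually (pi_gt_log (2 * C / (1 - t)))).mono fun n ⟨a1, a2⟩ => ?_
  have h3 : 0 < (1 - t) / 2 := by linarith
  have h4 := mul_lt_mul_of_pos_left a2 h3
  have h5 : (1 - t) / 2 * (2 * C / (1 - t) * Real.log n) = C * Real.log n := by
    have : 1 - t ≠ 0 := by linarith
    field_simp
  have h6 : 1 - t - (1 - t) / 2 = (1 - t) / 2 := by ring
  rw [h6] at a1
  linarith

end Pool.Agent.R477.TE
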