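import Mathlib
import Pool.Agent.R477.TE.Psi

set_option autoImplicit false

/-!
# The 2-adic exceptional set of the Lenstra-Pomerance-Wagstaff law

For a 2-adic integer `α` and a prime `p` let `W α p` be the `p`-rough part (the product, with
multiplicity, of the prime factors larger than `p`) of the residue of `α` modulo `2 ^ p` in
`[0, 2 ^ p)`, the integer formed by the last `p` binary digits of `α`.  For `α = -1` this is the
Mersenne number `2 ^ p - 1` itself.  Let `M α n` be the number of primes `p ≤ n` with `W α p` prime.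
For almost every 2-adic unit `α` the law `M α n ~ (e ^ γ / log 2) log n` is known (`TwoAdicLaw`).

We prove that the law fails for the generic unit in the sense of Baire category, in the strongest
possible way, and that in every ball about a unit the exceptional set has full Hausdorff dimension.
-/

namespace Pool.Agent.R477.TE.Exceptions

open Filter Topology

/-- The product, with multiplicity, of the prime factors of `m` that are larger than `p`. -/
def roughPart (p m : ℕ) : ℕ := (m.primeFactorsList.filter (fun r => p < r)).prod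

/-- The `p`-rough part of the residue of the 2-adic integer `α` modulo `2 ^ p`. -/
noncomputable def W (α : ℤ_[2]) (p : ℕ) : ℕ := roughPart p (PadicInt.toZModPow p α).val

/-- The number of primes `p ≤ n` for which `W α p` is prime. -/
noncomputable def M (α : ℤ_[2]) (n : ℕ) : ℕ :=
  ((Finset.range (n + 1)).filter (fun p => p.Prime ∧ (W α p).Prime)).card

/-- The counting function at `α = -1` is that of the Mersenne prime exponents.  (1) For every `f`
tending to infinity, `M α n < f n` for infinitely many `n`, for comeagre many units `α`.  (2) For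
comeagre many units `α`, all the primes in `(2 log n, n]` are exponents for infinitely many `n`,
`limsup M α n / π(n) = 1`, and every `c ≥ 0` is a limit point of `M α n / log n`.  (3) In every ball
about a unit, the set of the `α` with `limsup M α n / π(n) ≥ 1 - t` has Hausdorff dimension at least
`t`, and the set of those with `limsup M α n / log n = ∞` has Hausdorff dimension `1`. -/
theorem result :
    (∀ n : ℕ, M (-1) n =
      ((Finset.range (n + 1)).filter (fun p => p.Prime ∧ (2 ^ p - 1).Prime)).card) ∧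
    (∀ f : ℕ → ℝ, Tendsto f atTop atTop → ∀ᶠ α : ℤ_[2] in residual ℤ_[2], IsUnit α →
      ∃ᶠ n : ℕ in atTop, (M α n : ℝ) < f n) ∧
    (∀ᶠ α : ℤ_[2] in residual ℤ_[2], IsUnit α →
      (∃ᶠ n : ℕ in atTop, ∀ p : ℕ, p.Prime → 2 * Real.log n < p → p ≤ n → (W α p).Prime) ∧
      (∀ ε : ℝ, 0 < ε → ∃ᶠ n : ℕ in atTop, (1 - ε) * Nat.primeCounting n < M α n) ∧
      (∀ c : ℝ, 0 ≤ c → MapClusterPt c atTop (fun n : ℕ => (M α n : ℝ) / Real.log n))) ∧
    (∀ α₀ : ℤ_[2], IsUnit α₀ → ∀ r : ℝ, 0 < r → ∀ t : ℝ, 0 < t → t < 1 →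
      ENNReal.ofReal t ≤ dimH {α : ℤ_[2] | α ∈ Metric.ball α₀ r ∧ ∀ ε : ℝ, 0 < ε →
        ∃ᶠ n : ℕ in atTop, (1 - t - ε) * Nat.primeCounting n < M α n}) ∧
    (∀ α₀ : ℤ_[2], IsUnit α₀ → ∀ r : ℝ, 0 < r →
      dimH {α : ℤ_[2] | α ∈ Metric.ball α₀ r ∧
        ∀ C : ℝ, ∃ᶠ n : ℕ in atTop, C * Real.log n < M α n} = 1) := by
  refine ⟨fun n => ?_, fun f hf =>
    Pool.Agent.R477.TE.generic fun k m α hα => Pool.Agent.R477.TE.low hf k m α hα,
    Pool.Agent.R477.TE.generic_unit, fun α₀ hα r hr t ht0 ht =>
    Pool.Agent.R477.TE.dim_ball hα hr ht0 ht, fun α₀ hα r hr =>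
    Pool.Agent.R477.TE.dim_ball_one hα hr⟩
  unfold M
  congr 1
  refine Finset.filter_congr fun p _ => and_congr_right fun hp => ?_
  have e2 : W (-1) p = 2 ^ p - 1 := by
    have h1 : (PadicInt.toZModPow p (-1 : ℤ_[2])).val = 2 ^ p - 1 := by
      rw [map_neg, map_one]
      have h2 : 1 ≤ 2 ^ p := Nat.one_le_two_pow
      have h3 : (-1 : ZMod (2 ^ p)) = ((2 ^ p - 1 : ℕ) : ZMod (2 ^ p)) := by
        rw [Nat.cast_sub h2, ZMod.natCast_self, Nat.cast_one, zero_sub]
      rw [h3, ZMod.val_natCast, Nat.mod_eq_of_lt (by omega)]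
    have h2 : Pool.Agent.R500.MG.W 1 p = 2 ^ p - 1 := Pool.Agent.R500.MG.W_one hp
    have h3 : Pool.Agent.R500.MG.W 1 p = roughPart p (2 ^ p - 1) := by
      unfold Pool.Agent.R500.MG.W
      have e1 : (1 : ℝ) * 2 ^ p = ((2 ^ p : ℕ) : ℝ) := by push_cast; ring
      rw [e1, Nat.ceil_natCast]
      rfl
    have h4 : W (-1) p = roughPart p (PadicInt.toZModPow p (-1 : ℤ_[2])).val := rfl
    rw [h4, h1, ← h3, h2]
  rw [e2]

end Pool.Agent.R477.TE.Exceptions
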